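import Mathlib
import Pool.Agent.Helper799.DvRogers

/-!
# Spaces on which every compact operator is nuclear: a trace inequality
-/

set_option autoImplicit false

namespace Pool.Agent.W2helper33.NC

variable {𝕜 : Type} [RCLike 𝕜]

/-- `T` is nuclear: `T x = ∑ f_n(x) y_n` with `∑ ‖f_n‖ ‖y_n‖ < ∞`. -/
def IsNuclear {X : Type} [NormedAddCommGroup X] [NormedSpace 𝕜 X] (T : X →L[𝕜] X) : Prop :=
  ∃ (f : ℕ → (X →L[𝕜] 𝕜)) (y : ℕ → X),
    Summable (fun n => ‖f n‖ * ‖y n‖) ∧ ∀ x : X, HasSum (fun n => (f n x) • y n) (T x)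

variable (𝕜) in
/-- The bounded approximation property. -/
def BAP (X : Type) [NormedAddCommGroup X] [NormedSpace 𝕜 X] : Prop :=
  ∃ lam : ℝ, ∀ (F : Finset X) (ε : ℝ), 0 < ε → ∃ S : X →L[𝕜] X,
    FiniteDimensional 𝕜 (LinearMap.range (S : X →ₗ[𝕜] X)) ∧ ‖S‖ ≤ lam ∧ ∀ x ∈ F, ‖S x - x‖ ≤ ε

section

variable {X : Type} [NormedAddCommGroup X] [NormedSpace 𝕜 X]

/-- the operator `∑ g_b ⊗ z_b` -/
noncomputable def fr {n : ℕ} (g : Fin n → X →L[𝕜] 𝕜) (z : Fin n → X) : X →L[𝕜] X :=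
  ∑ b, (g b).smulRight (z b)

theorem fr_apply {n : ℕ} (g : Fin n → X →L[𝕜] 𝕜) (z : Fin n → X) (x : X) :
    fr g z x = ∑ b, g b x • z b := by
  simp [fr]

/-- the pointwise bound -/
theorem pointwise {T : X →L[𝕜] X} (f : ℕ → (X →L[𝕜] 𝕜)) (y : ℕ → X)
    (hs : Summable (fun n => ‖f n‖ * ‖y n‖)) (hT : ∀ x : X, HasSum (fun n => (f n x) • y n) (T x))
    {n : ℕ} (g : Fin n → X →L[𝕜] 𝕜) (z : Fin n → X) :
    ‖∑ b, g b (T (z b))‖ ≤ ‖fr g z‖ * ∑' j, ‖f j‖ * ‖y j‖ := by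
  have h1 : HasSum (fun j => f j (fr g z (y j))) (∑ b, g b (T (z b))) := by
    have h2 : ∀ b, HasSum (fun j => g b (f j (z b) • y j)) (g b (T (z b))) := fun b =>
      (g b).hasSum (hT (z b))
    have h3 := hasSum_sum fun b (_ : b ∈ (Finset.univ : Finset (Fin n))) => h2 b
    convert h3 using 2 with j
    rw [fr_apply, map_sum]
    refine Finset.sum_congr rfl fun b _ => ?_
    rw [map_smul, map_smul, smul_eq_mul, smul_eq_mul, mul_comm]
  have hb : ∀ j, ‖f j (fr g z (y j))‖ ≤ ‖fr g z‖ * (‖f j‖ * ‖y j‖) := fun j => by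
    calc ‖f j (fr g z (y j))‖ ≤ ‖f j‖ * (‖fr g z‖ * ‖y j‖) :=
          ((f j).le_opNorm _).trans (mul_le_mul_of_nonneg_left ((fr g z).le_opNorm _) (norm_nonneg _))
      _ = _ := by ring
  rw [← h1.tsum_eq, ← tsum_mul_left]
  exact tsum_of_norm_bounded (hs.mul_left _).hasSum hb

/-- uniform boundedness on a closed subspace -/
theorem bs {E : Type} [NormedAddCommGroup E] [NormedSpace 𝕜 E] [CompleteSpace E]
    (K : Submodule 𝕜 E) (hK : IsClosed (K : Set E)) {ι : Type} (G : ι → E →L[𝕜] 𝕜)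
    (hpt : ∀ T ∈ K, ∃ A, ∀ i, ‖G i T‖ ≤ A) :
    ∃ C : ℝ, 0 ≤ C ∧ ∀ i, ∀ T ∈ K, ‖G i T‖ ≤ C * ‖T‖ := by
  have : CompleteSpace K := hK.completeSpace_coe
  obtain ⟨C, hC⟩ := banach_steinhaus (g := fun i => (G i).comp K.subtypeL) fun T => by
    obtain ⟨A, hA⟩ := hpt T.1 T.2
    exact ⟨A, fun i => hA i⟩
  refine ⟨|C|, abs_nonneg _, fun i T hT => ?_⟩
  have h1 := ((G i).comp K.subtypeL).le_opNorm ⟨T, hT⟩
  refine h1.trans (mul_le_mul_of_nonneg_right ((hC i).trans (le_abs_self C)) (norm_nonneg _))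

/-- the functional `T ↦ ∑ g_b (T z_b)` -/
noncomputable def fn {n : ℕ} (g : Fin n → X →L[𝕜] 𝕜) (z : Fin n → X) :
    (X →L[𝕜] X) →L[𝕜] 𝕜 :=
  ∑ b, (g b).comp (ContinuousLinearMap.apply 𝕜 X (z b))

theorem fn_apply {n : ℕ} (g : Fin n → X →L[𝕜] 𝕜) (z : Fin n → X) (T : X →L[𝕜] X) :
    fn g z T = ∑ b, g b (T (z b)) := by
  simp [fn]

/-- **The trace inequality.** -/
theorem trace_bound [CompleteSpace X] (h : ∀ T : X →L[𝕜] X, IsCompactOperator T → IsNuclear T) :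
    ∃ C : ℝ, 0 < C ∧ ∀ (n : ℕ) (g : Fin n → X →L[𝕜] 𝕜) (z : Fin n → X) (T : X →L[𝕜] X),
      IsCompactOperator T → ‖∑ b, g b (T (z b))‖ ≤ C * ‖fr g z‖ * ‖T‖ := by
  obtain ⟨C, hC0, hC⟩ := bs (compactOperator (RingHom.id 𝕜) X X)
    isClosed_setOfPred_isCompactOperator
    (ι := {p : Σ n : ℕ, (Fin n → X →L[𝕜] 𝕜) × (Fin n → X) // ‖fr p.2.1 p.2.2‖ ≤ 1})
    (fun i => fn i.1.2.1 i.1.2.2) fun T hT => by
      obtain ⟨f, y, hs, hT⟩ := h T hT
      refine ⟨∑' j, ‖f j‖ * ‖y j‖, fun i => ?_⟩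
      rw [fn_apply]
      refine (pointwise f y hs hT i.1.2.1 i.1.2.2).trans ?_
      exact mul_le_of_le_one_left (tsum_nonneg fun j => by positivity) i.2
  refine ⟨C + 1, by positivity, fun n g z T hT => ?_⟩
  obtain ⟨f, y, hs, hT'⟩ := h T hT
  rcases eq_or_ne ‖fr g z‖ 0 with h0 | h0
  · have h1 := pointwise f y hs hT' g z
    rw [h0, zero_mul] at h1
    rw [h0, mul_zero, zero_mul]
    exact h1
  · have hpos : 0 < ‖fr g z‖ := lt_of_le_of_ne (norm_nonneg _) (Ne.symm h0)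
    let s : 𝕜 := ((‖fr g z‖⁻¹ : ℝ) : 𝕜)
    have hs' : ‖s‖ = ‖fr g z‖⁻¹ := by
      show ‖((‖fr g z‖⁻¹ : ℝ) : 𝕜)‖ = _
      rw [RCLike.norm_ofReal, abs_of_nonneg (by positivity)]
    have hfr : fr (fun b => s • g b) z = s • fr g z := by
      ext x
      rw [fr_apply, smul_apply, fr_apply, Finset.smul_sum]
      refine Finset.sum_congr rfl fun b _ => ?_
      rw [smul_apply, smul_assoc]
    have h1 : ‖fr (fun b => s • g b) z‖ ≤ 1 := by
      rw [hfr, norm_smul, hs', inv_mul_cancel₀ h0]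
    have h3 : ‖fn (fun b => s • g b) z T‖ ≤ C * ‖T‖ :=
      hC ⟨⟨n, (fun b => s • g b, z)⟩, h1⟩ T hT
    have h4 : fn (fun b => s • g b) z T = s * ∑ b, g b (T (z b)) := by
      rw [fn_apply, Finset.mul_sum]
      rfl
    rw [h4, norm_mul, hs'] at h3
    have h5 : ‖fr g z‖⁻¹ * ‖∑ b, g b (T (z b))‖ ≤ (C + 1) * ‖T‖ :=
      h3.trans (mul_le_mul_of_nonneg_right (by linarith) (norm_nonneg _))
    rw [inv_mul_le_iff₀ hpos] at h5
    calc ‖∑ b, g b (T (z b))‖ ≤ ‖fr g z‖ * ((C + 1) * ‖T‖) := h5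
      _ = _ := by ring

/-- finite rank operators -/
theorem exists_fr (S : X →L[𝕜] X) [FiniteDimensional 𝕜 (LinearMap.range (S : X →ₗ[𝕜] X))] :
    ∃ (g : Fin (Module.finrank 𝕜 (LinearMap.range (S : X →ₗ[𝕜] X))) → X →L[𝕜] 𝕜)
      (z : Fin (Module.finrank 𝕜 (LinearMap.range (S : X →ₗ[𝕜] X))) → X),
      fr g z = S ∧ (∀ b, z b ∈ LinearMap.range (S : X →ₗ[𝕜] X)) ∧
      ((∀ x, S (S x) = S x) → ∀ b, g b (z b) = 1) := by
  let R := LinearMap.range (S : X →ₗ[𝕜] X)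
  let B := Module.finBasis 𝕜 R
  let r : X →L[𝕜] R := S.codRestrict R fun x => ⟨x, rfl⟩
  refine ⟨fun b => (LinearMap.toContinuousLinearMap (B.coord b)).comp r, fun b => (B b : X),
    ?_, fun b => (B b).2, fun hP b => ?_⟩
  · ext x
    rw [fr_apply]
    have h1 := congrArg (Subtype.val) (B.sum_repr (r x))
    rw [Submodule.coe_sum] at h1
    exact h1
  · have h1 : r (B b : X) = B b := by
      apply Subtype.ext
      show S (B b : X) = (B b : X)
      obtain ⟨x, hx⟩ := (B b).2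
      have hx' : S x = (B b : X) := hx
      rw [← hx', hP]
    show B.coord b (r (B b : X)) = 1
    rw [h1, Module.Basis.coord_apply, Module.Basis.repr_self, Finsupp.single_eq_same]

/-- finite rank operators are compact -/
theorem compact_of_range (S : X →L[𝕜] X)
    [FiniteDimensional 𝕜 (LinearMap.range (S : X →ₗ[𝕜] X))] : IsCompactOperator S := by
  let R := LinearMap.range (S : X →ₗ[𝕜] X)
  let r : X →L[𝕜] R := S.codRestrict R fun x => ⟨x, rfl⟩
  have : ProperSpace R := FiniteDimensional.proper 𝕜 R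
  have h1 : IsCompactOperator r := isCompactOperator_of_locallyCompactSpace_dom r
  have h2 := h1.clm_comp R.subtypeL
  exact h2

/-- **Projections**: the rank is at most `C ‖P‖ ^ 2`. -/
theorem projections [CompleteSpace X]
    (h : ∀ T : X →L[𝕜] X, IsCompactOperator T → IsNuclear T) :
    ∃ C : ℝ, 0 < C ∧ ∀ P : X →L[𝕜] X, (∀ x, P (P x) = P x) →
      FiniteDimensional 𝕜 (LinearMap.range (P : X →ₗ[𝕜] X)) →
      (Module.finrank 𝕜 (LinearMap.range (P : X →ₗ[𝕜] X)) : ℝ) ≤ C * ‖P‖ ^ 2 := by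
  obtain ⟨C, hC, hb⟩ := trace_bound h
  refine ⟨C, hC, fun P hP hf => ?_⟩
  obtain ⟨g, z, h1, h2, h3⟩ := exists_fr P
  have h4 := hb _ g z P (compact_of_range P)
  have h5 : ∑ b, g b (P (z b)) = (Module.finrank 𝕜 (LinearMap.range (P : X →ₗ[𝕜] X)) : 𝕜) := by
    rw [Finset.sum_congr rfl fun b _ => show g b (P (z b)) = 1 by
      obtain ⟨x, hx⟩ := h2 b
      have hx' : P x = z b := hx
      rw [← hx', hP, hx']
      exact h3 hP b]
    simp
  rw [h5, h1] at h4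
  have h6 : ‖((Module.finrank 𝕜 (LinearMap.range (P : X →ₗ[𝕜] X)) : ℕ) : 𝕜)‖ =
      (Module.finrank 𝕜 (LinearMap.range (P : X →ₗ[𝕜] X)) : ℝ) := RCLike.norm_natCast _
  rw [h6] at h4
  calc _ ≤ C * ‖P‖ * ‖P‖ := h4
    _ = _ := by ring

/-- **No bounded approximation property.** -/
theorem not_bap [CompleteSpace X] (hX : ¬ FiniteDimensional 𝕜 X)
    (h : ∀ T : X →L[𝕜] X, IsCompactOperator T → IsNuclear T) : ¬ BAP 𝕜 X := by
  rintro ⟨lam, hlam⟩
  obtain ⟨C, hC, hb⟩ := trace_bound h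
  -- the number of vectors
  obtain ⟨N, hN⟩ := exists_nat_gt ((6 * (C * |lam|)) ^ 2)
  obtain ⟨u, hu, hu'⟩ := Pool.Helper799.Te.exists_dr (𝕜 := 𝕜) hX N
  have hu0 : ∀ i, u i ≠ 0 := fun i h0 => by
    have := hu' i
    rw [h0, norm_zero] at this
    norm_num at this
  choose f hf1 hf2 using fun i => exists_dual_vector 𝕜 (u i) (norm_ne_zero_iff.2 (hu0 i))
  classical
  obtain ⟨S, hS1, hS2, hS3⟩ := hlam (Finset.univ.image u) (1 / 6) (by norm_num)
  obtain ⟨g, z, h1, -, -⟩ := exists_fr S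
  -- the norm of T
  have hT : ‖fr f u‖ ≤ Real.sqrt N := by
    refine ContinuousLinearMap.opNorm_le_bound _ (Real.sqrt_nonneg _) fun x => ?_
    rw [fr_apply]
    refine (hu fun i => f i x).trans ?_
    have h2 : ∑ i, ‖f i x‖ ^ 2 ≤ N * ‖x‖ ^ 2 := by
      calc ∑ i, ‖f i x‖ ^ 2 ≤ ∑ _i : Fin N, ‖x‖ ^ 2 := by
            refine Finset.sum_le_sum fun i _ => ?_
            have := (f i).le_opNorm x
            rw [hf1, one_mul] at this
            gcongr
        _ = N * ‖x‖ ^ 2 := by simp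
    calc Real.sqrt (∑ i, ‖f i x‖ ^ 2) ≤ Real.sqrt (N * ‖x‖ ^ 2) := Real.sqrt_le_sqrt h2
      _ = Real.sqrt N * ‖x‖ := by
        rw [Real.sqrt_mul (by positivity), Real.sqrt_sq (norm_nonneg _)]
  have hfin : FiniteDimensional 𝕜 (LinearMap.range ((fr f u : X →L[𝕜] X) : X →ₗ[𝕜] X)) := by
    have hsp : FiniteDimensional 𝕜 (Submodule.span 𝕜 (Set.range u)) :=
      FiniteDimensional.span_of_finite 𝕜 (Set.finite_range u)
    have hle : LinearMap.range ((fr f u : X →L[𝕜] X) : X →ₗ[𝕜] X) ≤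
        Submodule.span 𝕜 (Set.range u) := by
      rintro _ ⟨x, rfl⟩
      show fr f u x ∈ _
      rw [fr_apply]
      exact Submodule.sum_mem _ fun b _ => Submodule.smul_mem _ _
        (Submodule.subset_span ⟨b, rfl⟩)
    exact Submodule.finiteDimensional_of_le hle
  have h4 := hb _ g z (fr f u) (compact_of_range _)
  have h5 : ∑ b, g b (fr f u (z b)) = ∑ k, f k (S (u k)) := by
    have e0 : ∀ k, f k (S (u k)) = f k (fr g z (u k)) := fun k => by rw [h1]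
    simp only [e0, fr_apply, map_sum, map_smul, smul_eq_mul]
    rw [Finset.sum_comm]
    refine Finset.sum_congr rfl fun k _ => Finset.sum_congr rfl fun b _ => mul_comm _ _
  rw [h5, h1] at h4
  -- the lower bound
  have h6 : ∀ k, (1 / 6 : ℝ) ≤ RCLike.re (f k (S (u k))) := by
    intro k
    have e1 : ‖S (u k) - u k‖ ≤ 1 / 6 :=
      hS3 _ (Finset.mem_image.2 ⟨k, Finset.mem_univ _, rfl⟩)
    have e2 : ‖f k (S (u k) - u k)‖ ≤ 1 / 6 := by
      have := (f k).le_opNorm (S (u k) - u k)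
      rw [hf1, one_mul] at this
      exact this.trans e1
    have e3 : RCLike.re (f k (S (u k) - u k)) = RCLike.re (f k (S (u k))) - ‖u k‖ := by
      rw [map_sub, hf2, map_sub, RCLike.ofReal_re]
    have e4 := (abs_le.1 ((RCLike.abs_re_le_norm _).trans e2)).1
    rw [e3] at e4
    have := hu' k
    linarith
  have h7 : (N : ℝ) / 6 ≤ ‖∑ k, f k (S (u k))‖ := by
    refine le_trans ?_ (RCLike.re_le_norm _)
    rw [map_sum]
    calc (N : ℝ) / 6 = ∑ _k : Fin N, (1 / 6 : ℝ) := by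
          simp [div_eq_mul_inv]
      _ ≤ _ := Finset.sum_le_sum fun k _ => h6 k
  have h8 : (N : ℝ) / 6 ≤ C * |lam| * Real.sqrt N := by
    refine h7.trans (h4.trans ?_)
    have : ‖S‖ ≤ |lam| := hS2.trans (le_abs_self _)
    gcongr
  have hNpos : (0 : ℝ) < N := lt_of_le_of_lt (by positivity) hN
  have h9 : Real.sqrt N ≤ 6 * (C * |lam|) := by
    have e : (N : ℝ) = Real.sqrt N * Real.sqrt N := (Real.mul_self_sqrt hNpos.le).symm
    have hs : 0 < Real.sqrt N := Real.sqrt_pos.2 hNpos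
    have h10 : Real.sqrt N * Real.sqrt N ≤ 6 * (C * |lam|) * Real.sqrt N := by
      rw [← e]
      linarith
    exact le_of_mul_le_mul_right h10 hs
  have h11 : (N : ℝ) ≤ (6 * (C * |lam|)) ^ 2 := by
    rw [← Real.sq_sqrt hNpos.le]
    gcongr
  linarith

/-- complemented subspaces -/
theorem complemented {Y : Type} [NormedAddCommGroup Y] [NormedSpace 𝕜 Y]
    (h : ∀ T : X →L[𝕜] X, IsCompactOperator T → IsNuclear T)
    (J : Y →L[𝕜] X) (Q : X →L[𝕜] Y) (hQ : ∀ y, Q (J y) = y) (T : Y →L[𝕜] Y)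
    (hT : IsCompactOperator T) : IsNuclear T := by
  have h1 : IsCompactOperator (J.comp (T.comp Q)) := (hT.comp_clm Q).clm_comp J
  obtain ⟨f, y, hs, hf⟩ := h _ h1
  refine ⟨fun n => (f n).comp J, fun n => Q (y n), ?_, fun x => ?_⟩
  · refine Summable.of_nonneg_of_le (fun n => by positivity) (fun n => ?_)
      (hs.mul_left (‖J‖ * ‖Q‖))
    calc ‖(f n).comp J‖ * ‖Q (y n)‖ ≤ (‖f n‖ * ‖J‖) * (‖Q‖ * ‖y n‖) :=
          mul_le_mul ((f n).opNorm_comp_le J) (Q.le_opNorm _) (norm_nonneg _) (by positivity)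
      _ = _ := by ring
  · have h2 := Q.hasSum (hf (J x))
    have h3 : Q ((J.comp (T.comp Q)) (J x)) = T x := by
      show Q (J (T (Q (J x)))) = T x
      rw [hQ, hQ]
    rw [h3] at h2
    convert h2 using 2 with n
    rw [map_smul]
    rfl

end

end Pool.Agent.W2helper33.NC
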