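import Mathlib
import Pool.Agent.W2helper33.NC.Main

/-!
# The approximation property
-/

set_option autoImplicit false

namespace Pool.Agent.W2helper33.NC

open Filter Topology
open scoped ENNReal

variable {𝕜 : Type} [RCLike 𝕜]

variable (𝕜) in
/-- The approximation property. -/
def AP (X : Type) [NormedAddCommGroup X] [NormedSpace 𝕜 X] : Prop :=
  ∀ K : Set X, IsCompact K → ∀ ε : ℝ, 0 < ε → ∃ S : X →L[𝕜] X,
    FiniteDimensional 𝕜 (LinearMap.range (S : X →ₗ[𝕜] X)) ∧ ∀ x ∈ K, ‖S x - x‖ ≤ ε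

/-- weights -/
theorem weights {ι : Type} (c : ι → ℝ≥0∞) (hc : ∑' i, c i ≠ ∞) :
    ∃ w : ι → ℝ≥0∞, Tendsto w cofinite (𝓝 ∞) ∧ (∀ i, 1 ≤ w i) ∧ ∑' i, c i * w i ≠ ∞ := by
  classical
  have h := ENNReal.tendsto_tsum_compl_atTop_zero hc
  have h' : ∀ n : ℕ, ∃ s : Finset ι, ∑' b : {x // x ∉ s}, c b ≤ (2⁻¹ : ℝ≥0∞) ^ n := fun n =>
    ((ENNReal.tendsto_nhds_zero.1 h) ((2⁻¹ : ℝ≥0∞) ^ n)
      (ENNReal.pow_pos (by simp) n)).exists
  choose F hF using h'
  refine ⟨fun i => 1 + ∑' n, if i ∈ F n then 0 else 1, ?_, fun i => le_self_add, ?_⟩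
  · rw [ENNReal.tendsto_nhds_top_iff_nat]
    intro m
    have h1 : ∀ᶠ i in cofinite, i ∉ (Finset.range m).biUnion F :=
      (Finset.finite_toSet _).compl_mem_cofinite
    filter_upwards [h1] with i hi
    have h2 : ∀ n ∈ Finset.range m, i ∉ F n := fun n hn hin =>
      hi (Finset.mem_biUnion.2 ⟨n, hn, hin⟩)
    have h3 : (m : ℝ≥0∞) ≤ ∑' n, if i ∈ F n then 0 else 1 := by
      calc (m : ℝ≥0∞) = ∑ n ∈ Finset.range m, if i ∈ F n then 0 else 1 := by
            rw [Finset.sum_congr rfl fun n hn => if_neg (h2 n hn)]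
            simp
        _ ≤ _ := ENNReal.sum_le_tsum _
    calc (m : ℝ≥0∞) < m + 1 := ENNReal.lt_add_right (by simp) (by simp)
      _ ≤ (∑' n, if i ∈ F n then 0 else 1) + 1 := by gcongr
      _ = _ := add_comm _ _
  · have h1 : ∑' i, c i * (1 + ∑' n, if i ∈ F n then 0 else 1) =
        ∑' i, c i + ∑' n, ∑' b : {x // x ∉ F n}, c b := by
      simp only [mul_add, mul_one]
      rw [ENNReal.tsum_add]
      congr 1
      simp only [← ENNReal.tsum_mul_left]
      rw [ENNReal.tsum_comm]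
      refine tsum_congr fun n => ?_
      rw [show (∑' b : {x // x ∉ F n}, c b) = ∑' b : ({x | x ∉ F n} : Set ι), c b from rfl,
        tsum_subtype]
      refine tsum_congr fun i => ?_
      by_cases hi : i ∈ F n
      · rw [if_pos hi, Set.indicator_of_notMem (by simpa using hi), mul_zero]
      · rw [if_neg hi, Set.indicator_of_mem (by simpa using hi), mul_one]
    show ∑' i, c i * (1 + ∑' n, if i ∈ F n then 0 else 1) ≠ ∞
    rw [h1]
    refine ENNReal.add_ne_top.2 ⟨hc, ne_of_lt ?_⟩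
    calc ∑' n, ∑' b : {x // x ∉ F n}, c b ≤ ∑' n : ℕ, (2⁻¹ : ℝ≥0∞) ^ n :=
          ENNReal.tsum_le_tsum hF
      _ = 2 := by
          rw [ENNReal.tsum_geometric, ENNReal.one_sub_inv_two, inv_inv]
      _ < ∞ := by simp

section

variable {X : Type} [NormedAddCommGroup X] [NormedSpace 𝕜 X]

/-- approximation on an absolutely summable family -/
theorem AP.summable (hAP : AP 𝕜 X) {ι : Type} (c : ι → 𝕜) (hc : Summable fun i => ‖c i‖)
    (y : ι → X) (hy : ∀ i, ‖y i‖ ≤ 1) (F : Finset X) (ε : ℝ) (hε : 0 < ε) :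
    ∃ S : X →L[𝕜] X, FiniteDimensional 𝕜 (LinearMap.range (S : X →ₗ[𝕜] X)) ∧
      (∀ x ∈ F, ‖S x - x‖ ≤ ε) ∧ ∀ G : Finset ι, ∑ i ∈ G, ‖c i‖ * ‖S (y i) - y i‖ ≤ ε := by
  classical
  have hc' : ∑' i, ENNReal.ofReal ‖c i‖ ≠ ∞ := by
    rw [← ENNReal.ofReal_tsum_of_nonneg (fun i => norm_nonneg _) hc]
    exact ENNReal.ofReal_ne_top
  obtain ⟨w, hw1, hw2, hw3⟩ := weights _ hc'
  set A : ℝ := (∑' i, ENNReal.ofReal ‖c i‖ * w i).toReal with hA
  have hA0 : 0 ≤ A := ENNReal.toReal_nonneg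
  let s : ι → X := fun i => (((w i)⁻¹.toReal : ℝ) : 𝕜) • y i
  have hs : Tendsto s cofinite (𝓝 0) := by
    have h1 : Tendsto (fun i => ((w i)⁻¹).toReal) cofinite (𝓝 0) := by
      have h2 : Tendsto (fun i => (w i)⁻¹) cofinite (𝓝 (∞)⁻¹) := tendsto_inv_iff.2 hw1
      rw [ENNReal.inv_top] at h2
      exact (ENNReal.tendsto_toReal (by simp)).comp h2
    refine squeeze_zero_norm (fun i => ?_) h1
    show ‖(((w i)⁻¹.toReal : ℝ) : 𝕜) • y i‖ ≤ _
    rw [norm_smul, RCLike.norm_ofReal, abs_of_nonneg ENNReal.toReal_nonneg]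
    exact mul_le_of_le_one_right ENNReal.toReal_nonneg (hy i)
  have hK : IsCompact (insert 0 (Set.range s) ∪ (F : Set X)) :=
    hs.isCompact_insert_range_of_cofinite.union F.finite_toSet.isCompact
  obtain ⟨S, hS1, hS2⟩ := hAP _ hK (min ε (ε / (A + 1))) (by positivity)
  refine ⟨S, hS1, fun x hx => (hS2 x (Or.inr hx)).trans (min_le_left _ _), fun G => ?_⟩
  have h1 : ∀ i, ‖c i‖ * ‖S (y i) - y i‖ ≤
      (ENNReal.ofReal ‖c i‖ * w i).toReal * (ε / (A + 1)) := by
    intro i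
    rcases eq_or_ne (c i) 0 with h0 | h0
    · rw [h0]
      simp
    · have hwi : w i ≠ ∞ := by
        intro htop
        have h2 : ENNReal.ofReal ‖c i‖ * w i ≤ ∑' i, ENNReal.ofReal ‖c i‖ * w i :=
          ENNReal.le_tsum i
        rw [htop, ENNReal.mul_top (by simpa using h0)] at h2
        exact hw3 (top_le_iff.1 h2)
      have hwp : 0 < (w i).toReal := ENNReal.toReal_pos (by
        have := hw2 i
        intro h
        rw [h] at this
        simp at this) hwi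
      have h3 : y i = (((w i).toReal : ℝ) : 𝕜) • s i := by
        show y i = (((w i).toReal : ℝ) : 𝕜) • (((w i)⁻¹.toReal : ℝ) : 𝕜) • y i
        rw [smul_smul, ENNReal.toReal_inv, ← RCLike.ofReal_mul, mul_inv_cancel₀ hwp.ne',
          RCLike.ofReal_one, one_smul]
      have h4 : ‖S (y i) - y i‖ = (w i).toReal * ‖S (s i) - s i‖ := by
        rw [h3, map_smul, ← smul_sub, norm_smul, RCLike.norm_ofReal, abs_of_pos hwp]
      have h5 : ‖S (s i) - s i‖ ≤ ε / (A + 1) :=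
        (hS2 (s i) (Or.inl (Or.inr ⟨i, rfl⟩))).trans (min_le_right _ _)
      rw [ENNReal.toReal_mul, ENNReal.toReal_ofReal (norm_nonneg _), h4]
      calc ‖c i‖ * ((w i).toReal * ‖S (s i) - s i‖) ≤ ‖c i‖ * ((w i).toReal * (ε / (A + 1))) := by
            gcongr
        _ = _ := by ring
  calc ∑ i ∈ G, ‖c i‖ * ‖S (y i) - y i‖ ≤
      ∑ i ∈ G, (ENNReal.ofReal ‖c i‖ * w i).toReal * (ε / (A + 1)) :=
        Finset.sum_le_sum fun i _ => h1 i
    _ = (∑ i ∈ G, ENNReal.ofReal ‖c i‖ * w i).toReal * (ε / (A + 1)) := by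
        rw [← Finset.sum_mul, ENNReal.toReal_sum fun i _ => ne_top_of_le_ne_top hw3 (ENNReal.le_tsum i)]
    _ ≤ A * (ε / (A + 1)) := by
        exact mul_le_mul_of_nonneg_right (ENNReal.toReal_mono hw3 (ENNReal.sum_le_tsum _))
          (by positivity)
    _ ≤ (A + 1) * (ε / (A + 1)) := by gcongr; linarith
    _ = ε := by field_simp

/-! ## the nuclear norm -/

/-- a quantitative open mapping theorem for a closed subspace -/
theorem om {E F : Type} [NormedAddCommGroup E] [NormedSpace 𝕜 E] [CompleteSpace E]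
    [NormedAddCommGroup F] [NormedSpace 𝕜 F] [CompleteSpace F]
    (K : Submodule 𝕜 F) (hK : IsClosed (K : Set F)) (Φ : E →L[𝕜] F) (h1 : ∀ c, Φ c ∈ K)
    (h2 : ∀ T ∈ K, ∃ c, Φ c = T) :
    ∃ C : ℝ, 0 < C ∧ ∀ T ∈ K, ∃ c, Φ c = T ∧ ‖c‖ ≤ C * ‖T‖ := by
  have : CompleteSpace K := hK.completeSpace_coe
  obtain ⟨C, hC, h⟩ := (Φ.codRestrict K h1).exists_preimage_norm_le fun T => by
    obtain ⟨c, hc⟩ := h2 T.1 T.2
    exact ⟨c, Subtype.ext hc⟩
  refine ⟨C, hC, fun T hT => ?_⟩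
  obtain ⟨c, hc, hc'⟩ := h ⟨T, hT⟩
  exact ⟨c, congrArg Subtype.val hc, hc'⟩

section phi

variable {ι F : Type} [NormedAddCommGroup F] [NormedSpace 𝕜 F] [CompleteSpace F]

theorem l1_summable (c : lp (fun _ : ι => 𝕜) 1) : Summable fun i => ‖c i‖ := by
  have h := (lp.memℓp c).summable (by norm_num)
  simpa using h

theorem l1_norm (c : lp (fun _ : ι => 𝕜) 1) : ‖c‖ = ∑' i, ‖c i‖ := by
  have h := lp.norm_eq_tsum_rpow (p := 1) (by norm_num) c
  simpa using h

theorem l1_smul_summable (t : ι → F) (ht : ∀ i, ‖t i‖ ≤ 1) (c : lp (fun _ : ι => 𝕜) 1) :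
    Summable fun i => c i • t i := by
  refine Summable.of_norm_bounded (l1_summable c) fun i => ?_
  rw [norm_smul]
  exact mul_le_of_le_one_right (norm_nonneg _) (ht i)

/-- the map `c ↦ ∑ c_i t_i` -/
noncomputable def Phi (t : ι → F) (ht : ∀ i, ‖t i‖ ≤ 1) : lp (fun _ : ι => 𝕜) 1 →L[𝕜] F :=
  LinearMap.mkContinuous
    { toFun := fun c => ∑' i, c i • t i
      map_add' := fun c d => by
        rw [← (l1_smul_summable t ht c).tsum_add (l1_smul_summable t ht d)]
        refine tsum_congr fun i => ?_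
        rw [lp.coeFn_add, Pi.add_apply, add_smul]
      map_smul' := fun a c => by
        rw [RingHom.id_apply, ← (l1_smul_summable t ht c).tsum_const_smul]
        refine tsum_congr fun i => ?_
        rw [lp.coeFn_smul, Pi.smul_apply, smul_assoc] } 1 fun c => by
      rw [one_mul, l1_norm]
      refine tsum_of_norm_bounded (l1_summable c).hasSum fun i => ?_
      rw [norm_smul]
      exact mul_le_of_le_one_right (norm_nonneg _) (ht i)

theorem Phi_hasSum (t : ι → F) (ht : ∀ i, ‖t i‖ ≤ 1) (c : lp (fun _ : ι => 𝕜) 1) :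
    HasSum (fun i => c i • t i) (Phi t ht c) :=
  (l1_smul_summable t ht c).hasSum

theorem Phi_single [DecidableEq ι] (t : ι → F) (ht : ∀ i, ‖t i‖ ≤ 1) (i : ι) (a : 𝕜) :
    Phi t ht (lp.single 1 i a) = a • t i := by
  have h := Phi_hasSum t ht (lp.single 1 i a)
  refine h.unique ?_
  convert hasSum_single (f := fun j => (lp.single (E := fun _ : ι => 𝕜) 1 i a) j • t j) i ?_ using 1
  · rw [lp.single_apply_self]
  · intro j hj
    rw [lp.single_apply_ne _ _ _ hj, zero_smul]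

end phi

end

end Pool.Agent.W2helper33.NC
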