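import Mathlib
import Pool.Agent.W2helper33.NC.AP

/-!
# The approximation property fails
-/

set_option autoImplicit false

namespace Pool.Agent.W2helper33.NC

open Filter Topology
open scoped ENNReal

variable {𝕜 : Type} [RCLike 𝕜] {X : Type} [NormedAddCommGroup X] [NormedSpace 𝕜 X]

/-- the vectors of Dvoretzky and Rogers with norming functionals -/
theorem dr (hX : ¬ FiniteDimensional 𝕜 X) (N : ℕ) :
    ∃ (f : Fin N → X →L[𝕜] 𝕜) (u : Fin N → X), (∀ k, ‖f k‖ = 1) ∧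
      (∀ k, f k (u k) = (‖u k‖ : 𝕜)) ∧ (∀ k, 1 / 3 ≤ ‖u k‖) ∧ ‖fr f u‖ ≤ Real.sqrt N ∧
      IsCompactOperator (fr f u) := by
  obtain ⟨u, hu, hu'⟩ := Pool.Helper799.Te.exists_dr (𝕜 := 𝕜) hX N
  have hu0 : ∀ i, u i ≠ 0 := fun i h0 => by
    have := hu' i
    rw [h0, norm_zero] at this
    norm_num at this
  choose f hf1 hf2 using fun i => exists_dual_vector 𝕜 (u i) (norm_ne_zero_iff.2 (hu0 i))
  refine ⟨f, u, hf1, hf2, hu', ?_, ?_⟩
  · refine ContinuousLinearMap.opNorm_le_bound _ (Real.sqrt_nonneg _) fun x => ?_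
    rw [fr_apply]
    refine (hu fun i => f i x).trans ?_
    have h2 : ∑ i, ‖f i x‖ ^ 2 ≤ N * ‖x‖ ^ 2 := by
      calc ∑ i, ‖f i x‖ ^ 2 ≤ ∑ _i : Fin N, ‖x‖ ^ 2 := by
            refine Finset.sum_le_sum fun i _ => ?_
            have := (f i).le_opNorm x
            rw [hf1, one_mul] at this
            gcongr
        _ = N * ‖x‖ ^ 2 := by simp
    calc Real.sqrt (∑ i, ‖f i x‖ ^ 2) ≤ Real.sqrt (N * ‖x‖ ^ 2) := Real.sqrt_le_sqrt h2
      _ = Real.sqrt N * ‖x‖ := by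
        rw [Real.sqrt_mul (by positivity), Real.sqrt_sq (norm_nonneg _)]
  · have hfin : FiniteDimensional 𝕜 (LinearMap.range ((fr f u : X →L[𝕜] X) : X →ₗ[𝕜] X)) := by
      have hsp : FiniteDimensional 𝕜 (Submodule.span 𝕜 (Set.range u)) :=
        FiniteDimensional.span_of_finite 𝕜 (Set.finite_range u)
      have hle : LinearMap.range ((fr f u : X →L[𝕜] X) : X →ₗ[𝕜] X) ≤
          Submodule.span 𝕜 (Set.range u) := by
        rintro _ ⟨x, rfl⟩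
        show fr f u x ∈ _
        rw [fr_apply]
        exact Submodule.sum_mem _ fun b _ => Submodule.smul_mem _ _
          (Submodule.subset_span ⟨b, rfl⟩)
      exact Submodule.finiteDimensional_of_le hle
    exact compact_of_range _

variable (𝕜 X) in
/-- the index set: pairs of elements of the unit balls -/
def Idx : Type := {p : (X →L[𝕜] 𝕜) × X // ‖p.1‖ ≤ 1 ∧ ‖p.2‖ ≤ 1}

/-- the rank one operators -/
noncomputable def ten (i : Idx 𝕜 X) : X →L[𝕜] X := i.1.1.smulRight i.1.2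

theorem ten_le (i : Idx 𝕜 X) : ‖ten i‖ ≤ 1 := by
  unfold ten
  rw [ContinuousLinearMap.norm_smulRight_apply]
  exact mul_le_one₀ i.2.1 (norm_nonneg _) i.2.2

theorem ten_compact (i : Idx 𝕜 X) : IsCompactOperator (ten i) := by
  have h1 : IsCompactOperator (i.1.1 : X →L[𝕜] 𝕜) :=
    isCompactOperator_of_locallyCompactSpace_dom i.1.1
  exact h1.clm_comp (ContinuousLinearMap.toSpanSingleton 𝕜 i.1.2)

theorem _root_.HasSum.cgr {ι E : Type} [AddCommMonoid E] [TopologicalSpace E] {f g : ι → E} {a : E}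
    (h : HasSum f a) (hfg : ∀ i, g i = f i) : HasSum g a := by
  rwa [show g = f from funext hfg]

theorem surj_aux {ι F : Type} [NormedAddCommGroup F] [NormedSpace 𝕜 F] [CompleteSpace F]
    (t : ι → F) (ht : ∀ i, ‖t i‖ ≤ 1) (i : ℕ → ι) (a : ℕ → 𝕜) (ha : Summable fun j => ‖a j‖) :
    ∃ c : lp (fun _ : ι => 𝕜) 1, HasSum (fun j => a j • t (i j)) (Phi t ht c) := by
  classical
  have hsn : ∀ j, ‖lp.single (E := fun _ : ι => 𝕜) 1 (i j) (a j)‖ = ‖a j‖ := fun j =>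
    lp.norm_single (by norm_num) _ _
  have hss : Summable fun j => lp.single (E := fun _ : ι => 𝕜) 1 (i j) (a j) :=
    Summable.of_norm (by simpa only [hsn] using ha)
  refine ⟨∑' j, lp.single (E := fun _ : ι => 𝕜) 1 (i j) (a j), ?_⟩
  have h1 := (Phi t ht).hasSum hss.hasSum
  exact h1.cgr fun j => (Phi_single t ht (i j) (a j)).symm

theorem unit_le {E : Type} [NormedAddCommGroup E] [NormedSpace 𝕜 E] (v : E) :
    ‖((‖v‖⁻¹ : ℝ) : 𝕜) • v‖ ≤ 1 := by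
  rw [norm_smul, RCLike.norm_ofReal, abs_of_nonneg (by positivity)]
  rcases eq_or_ne ‖v‖ 0 with h0 | h0
  · rw [h0, mul_zero]; exact zero_le_one
  · rw [inv_mul_cancel₀ h0]

theorem unit_smul {E : Type} [NormedAddCommGroup E] [NormedSpace 𝕜 E] (v : E) :
    ((‖v‖ : ℝ) : 𝕜) • (((‖v‖⁻¹ : ℝ) : 𝕜) • v) = v := by
  rcases eq_or_ne v 0 with h0 | h0
  · rw [h0]; simp
  · rw [smul_smul, ← RCLike.ofReal_mul, mul_inv_cancel₀ (norm_ne_zero_iff.2 h0),
      RCLike.ofReal_one, one_smul]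

/-- the pair of the normalized vectors -/
noncomputable def nrm (f : X →L[𝕜] 𝕜) (y : X) : Idx 𝕜 X :=
  ⟨(((‖f‖⁻¹ : ℝ) : 𝕜) • f, ((‖y‖⁻¹ : ℝ) : 𝕜) • y), unit_le _, unit_le _⟩

theorem nrm_apply (f : X →L[𝕜] 𝕜) (y x : X) :
    (((‖f‖ : ℝ) : 𝕜) * ((‖y‖ : ℝ) : 𝕜)) • (ten (nrm f y) x) = f x • y := by
  show (((‖f‖ : ℝ) : 𝕜) * ((‖y‖ : ℝ) : 𝕜)) •
    ((((‖f‖⁻¹ : ℝ) : 𝕜) • f) x • (((‖y‖⁻¹ : ℝ) : 𝕜) • y)) = f x • y
  have e1 : ((‖f‖ : ℝ) : 𝕜) * ((((‖f‖⁻¹ : ℝ) : 𝕜) • f) x) = f x := by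
    exact congrArg (fun φ : X →L[𝕜] 𝕜 => φ x) (unit_smul (𝕜 := 𝕜) f)
  calc _ = (((‖f‖ : ℝ) : 𝕜) * ((((‖f‖⁻¹ : ℝ) : 𝕜) • f) x)) •
        (((‖y‖ : ℝ) : 𝕜) • (((‖y‖⁻¹ : ℝ) : 𝕜) • y)) := by
        simp only [smul_smul]
        congr 1
        ring
    _ = f x • y := by rw [e1, unit_smul]

theorem surj [CompleteSpace X] (T : X →L[𝕜] X) (h : IsNuclear T) :
    ∃ c : lp (fun _ : Idx 𝕜 X => 𝕜) 1, Phi ten ten_le c = T := by
  obtain ⟨f, y, hs, hT⟩ := h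
  obtain ⟨c, hc⟩ := surj_aux (ten (𝕜 := 𝕜) (X := X)) ten_le (fun j => nrm (f j) (y j))
    (fun j => ((‖f j‖ : ℝ) : 𝕜) * ((‖y j‖ : ℝ) : 𝕜)) (by simpa using hs)
  refine ⟨c, ?_⟩
  ext x
  refine HasSum.unique (f := fun j => f j x • y j) ?_ (hT x)
  have h3 := (ContinuousLinearMap.apply 𝕜 X x).hasSum hc
  exact h3.cgr fun j => (nrm_apply (f j) (y j) x).symm

theorem nuc_bound [CompleteSpace X] (h : ∀ T : X →L[𝕜] X, IsCompactOperator T → IsNuclear T) :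
    ∃ C : ℝ, 0 < C ∧ ∀ T : X →L[𝕜] X, IsCompactOperator T →
      ∃ c : Idx 𝕜 X → 𝕜, (Summable fun i => ‖c i‖) ∧ HasSum (fun i => c i • ten i) T ∧
        ∑' i, ‖c i‖ ≤ C * ‖T‖ := by
  have hK : IsClosed ((compactOperator (RingHom.id 𝕜) X X : Submodule 𝕜 (X →L[𝕜] X)) :
    Set (X →L[𝕜] X)) := isClosed_setOfPred_isCompactOperator
  obtain ⟨C, hC, hb⟩ := om (compactOperator (RingHom.id 𝕜) X X) hK
    (Phi (ten (𝕜 := 𝕜) (X := X)) ten_le)
    (fun c => hK.mem_of_tendsto (Phi_hasSum ten ten_le c) (Eventually.of_forall fun s =>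
      Submodule.sum_mem _ fun i _ => Submodule.smul_mem _ _ (ten_compact i)))
    (fun T hT => surj T (h T hT))
  refine ⟨C, hC, fun T hT => ?_⟩
  obtain ⟨c, hc, hc'⟩ := hb T hT
  refine ⟨fun i => c i, l1_summable c, ?_, ?_⟩
  · have := Phi_hasSum ten ten_le c
    rwa [hc] at this
  · rw [← l1_norm]
    exact hc'

/-- evaluation of the series -/
theorem eval_sum {ι : Type} (c : ι → 𝕜) (t : ι → X →L[𝕜] X) (T : X →L[𝕜] X)
    (h : HasSum (fun i => c i • t i) T) (g : X →L[𝕜] 𝕜) (x : X) :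
    HasSum (fun i => c i * g (t i x)) (g (T x)) := by
  have h1 := g.hasSum ((ContinuousLinearMap.apply 𝕜 X x).hasSum h)
  refine h1.cgr fun i => ?_
  show c i * g (t i x) = g (c i • t i x)
  rw [map_smul, smul_eq_mul]

/-- **No approximation property.** -/
theorem not_ap [CompleteSpace X] (hX : ¬ FiniteDimensional 𝕜 X)
    (h : ∀ T : X →L[𝕜] X, IsCompactOperator T → IsNuclear T) : ¬ AP 𝕜 X := by
  intro hAP
  classical
  obtain ⟨C, hC, hb⟩ := nuc_bound h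
  obtain ⟨N, hN⟩ := exists_nat_gt ((6 * C + 1) ^ 2)
  obtain ⟨f, u, hf1, hf2, hu', hT, hTc⟩ := dr hX N
  obtain ⟨c, hcs, hc, hc'⟩ := hb _ hTc
  obtain ⟨S, hS1, hS3, hS4⟩ := hAP.summable c hcs
    (fun i : Idx 𝕜 X => i.1.2) (fun i => i.2.2) (Finset.univ.image u) (1 / 6) (by norm_num)
  obtain ⟨g, z, h1, -, -⟩ := exists_fr S
  have h5 : ∑ b, g b (fr f u (z b)) = ∑ k, f k (S (u k)) := by
    have e0 : ∀ k, f k (S (u k)) = f k (fr g z (u k)) := fun k => by rw [h1]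
    simp only [e0, fr_apply, map_sum, map_smul, smul_eq_mul]
    rw [Finset.sum_comm]
    refine Finset.sum_congr rfl fun k _ => Finset.sum_congr rfl fun b _ => mul_comm _ _
  have h6 : HasSum (fun i : Idx 𝕜 X => c i * i.1.1 (S i.1.2)) (∑ b, g b (fr f u (z b))) := by
    have e3 := hasSum_sum fun b (_ : b ∈ (Finset.univ : Finset (Fin _))) =>
      eval_sum c ten _ hc (g b) (z b)
    refine e3.cgr fun i => ?_
    have e4 : S i.1.2 = fr g z i.1.2 := by rw [h1]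
    rw [e4, fr_apply, map_sum, Finset.mul_sum]
    refine Finset.sum_congr rfl fun b _ => ?_
    show c i * i.1.1 (g b i.1.2 • z b) = c i * g b (i.1.1 (z b) • i.1.2)
    rw [map_smul, map_smul, smul_eq_mul, smul_eq_mul, mul_comm (g b i.1.2)]

  have h7 : ‖∑ b, g b (fr f u (z b))‖ ≤ ∑' i, ‖c i‖ + 1 / 6 := by
    refine le_of_tendsto h6.norm (Eventually.of_forall fun G => ?_)
    calc ‖∑ i ∈ G, c i * i.1.1 (S i.1.2)‖ ≤ ∑ i ∈ G, ‖c i * i.1.1 (S i.1.2)‖ := norm_sum_le _ _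
      _ ≤ ∑ i ∈ G, (‖c i‖ + ‖c i‖ * ‖S i.1.2 - i.1.2‖) := by
          refine Finset.sum_le_sum fun i _ => ?_
          rw [norm_mul]
          have e5 : ‖i.1.1 (S i.1.2)‖ ≤ 1 + ‖S i.1.2 - i.1.2‖ := by
            calc ‖i.1.1 (S i.1.2)‖ ≤ ‖i.1.1‖ * ‖S i.1.2‖ := i.1.1.le_opNorm _
              _ ≤ 1 * ‖S i.1.2‖ := mul_le_mul_of_nonneg_right i.2.1 (norm_nonneg _)
              _ = ‖i.1.2 + (S i.1.2 - i.1.2)‖ := by rw [one_mul, add_sub_cancel]
              _ ≤ ‖i.1.2‖ + ‖S i.1.2 - i.1.2‖ := norm_add_le _ _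
              _ ≤ 1 + ‖S i.1.2 - i.1.2‖ := by gcongr; exact i.2.2
          calc ‖c i‖ * ‖i.1.1 (S i.1.2)‖ ≤ ‖c i‖ * (1 + ‖S i.1.2 - i.1.2‖) :=
                mul_le_mul_of_nonneg_left e5 (norm_nonneg _)
            _ = _ := by ring
      _ = ∑ i ∈ G, ‖c i‖ + ∑ i ∈ G, ‖c i‖ * ‖S i.1.2 - i.1.2‖ := Finset.sum_add_distrib
      _ ≤ ∑' i, ‖c i‖ + 1 / 6 := by
          refine add_le_add ?_ (hS4 G)
          exact hcs.sum_le_tsum _ fun i _ => norm_nonneg _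
  rw [h5] at h7
  have h8 : ∀ k, (1 / 6 : ℝ) ≤ RCLike.re (f k (S (u k))) := by
    intro k
    have e1 : ‖S (u k) - u k‖ ≤ 1 / 6 :=
      hS3 _ (Finset.mem_image.2 ⟨k, Finset.mem_univ _, rfl⟩)
    have e2 : ‖f k (S (u k) - u k)‖ ≤ 1 / 6 := by
      have := (f k).le_opNorm (S (u k) - u k)
      rw [hf1, one_mul] at this
      exact this.trans e1
    have e3 : RCLike.re (f k (S (u k) - u k)) = RCLike.re (f k (S (u k))) - ‖u k‖ := by
      rw [map_sub, hf2, map_sub, RCLike.ofReal_re]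
    have e4 := (abs_le.1 ((RCLike.abs_re_le_norm _).trans e2)).1
    rw [e3] at e4
    have := hu' k
    linarith
  have h9 : (N : ℝ) / 6 ≤ ‖∑ k, f k (S (u k))‖ := by
    refine le_trans ?_ (RCLike.re_le_norm _)
    rw [map_sum]
    calc (N : ℝ) / 6 = ∑ _k : Fin N, (1 / 6 : ℝ) := by
          simp [div_eq_mul_inv]
      _ ≤ _ := Finset.sum_le_sum fun k _ => h8 k
  have h10 : (N : ℝ) / 6 ≤ C * Real.sqrt N + 1 / 6 := by
    refine h9.trans (h7.trans ?_)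
    have : C * ‖fr f u‖ ≤ C * Real.sqrt N := by gcongr
    linarith
  have hs : 6 * C + 1 < Real.sqrt N := Real.lt_sqrt_of_sq_lt hN
  have hNpos : (0 : ℝ) ≤ N := Nat.cast_nonneg N
  have e : (N : ℝ) = Real.sqrt N * Real.sqrt N := (Real.mul_self_sqrt hNpos).symm
  have h11 : (6 * C + 1) * Real.sqrt N < Real.sqrt N * Real.sqrt N := by
    have : 0 < Real.sqrt N := by linarith
    gcongr
  rw [← e] at h11
  nlinarith

end Pool.Agent.W2helper33.NC
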